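import Pool.Agent.Helper11.LE.Goals1

/-!
# LE: L_LIN (linear algebra over `F_p`: counting)
-/

namespace Pool.Agent.Helper61.LE

open Pool.Agent.Helper11.LE

/-- bound for the index from a bound for the sets of incongruent elements -/
theorem relIndex_bd {E : Type} [CommGroup E] (A B : Subgroup E) (N : ℕ)
    (h : ∀ F : Finset E, (∀ x ∈ F, x ∈ B) → (∀ x ∈ F, ∀ y ∈ F, x ≠ y → x / y ∉ A) → F.card ≤ N) :
    A.relIndex B ≠ 0 ∧ A.relIndex B ≤ N := by
  classical
  have key : ∀ s : Finset (B ⧸ A.subgroupOf B), s.card ≤ N := by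
    intro s
    have hinj : Function.Injective (fun q : B ⧸ A.subgroupOf B ↦ ((Quotient.out q : B) : E)) := by
      intro a b hab
      have h1 : (Quotient.out a : B) = Quotient.out b := Subtype.ext hab
      have h2 := congrArg (fun t : B ↦ (QuotientGroup.mk t : B ⧸ A.subgroupOf B)) h1
      simpa using h2
    have := h (s.image (fun q : B ⧸ A.subgroupOf B ↦ ((Quotient.out q : B) : E))) ?_ ?_
    · rwa [Finset.card_image_of_injective _ hinj] at this
    · intro x hx
      obtain ⟨q, _, rfl⟩ := Finset.mem_image.1 hx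
      exact (Quotient.out q : B).2
    · intro x hx y hy hxy hA
      obtain ⟨q, _, rfl⟩ := Finset.mem_image.1 hx
      obtain ⟨q', _, rfl⟩ := Finset.mem_image.1 hy
      apply hxy
      have h1 : (QuotientGroup.mk (Quotient.out q' : B) : B ⧸ A.subgroupOf B)
          = QuotientGroup.mk (Quotient.out q : B) := by
        rw [QuotientGroup.eq, Subgroup.mem_subgroupOf]
        simpa [div_eq_mul_inv, mul_comm] using hA
      have h2 : q' = q := by simpa using h1
      rw [h2]
  have hfin : Finite (B ⧸ A.subgroupOf B) := by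
    by_contra hinf
    rw [not_finite_iff_infinite] at hinf
    obtain ⟨s, hs⟩ := Infinite.exists_subset_card_eq (B ⧸ A.subgroupOf B) (N + 1)
    have := key s
    omega
  have hcard : A.relIndex B = Nat.card (B ⧸ A.subgroupOf B) := rfl
  constructor
  · rw [hcard]
    exact Nat.card_pos.ne'
  · rw [hcard]
    have := Fintype.ofFinite (B ⧸ A.subgroupOf B)
    rw [Nat.card_eq_fintype_card, ← Finset.card_univ]
    exact key _

/-- lower bound for the index -/
theorem card_le_relIndex {E : Type} [CommGroup E] (A B : Subgroup E) (hne : A.relIndex B ≠ 0)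
    (F : Finset E) (h1 : ∀ x ∈ F, x ∈ B) (h2 : ∀ x ∈ F, ∀ y ∈ F, x ≠ y → x / y ∉ A) :
    F.card ≤ A.relIndex B := by
  classical
  have hfin : Finite (B ⧸ A.subgroupOf B) := by
    have : Nat.card (B ⧸ A.subgroupOf B) ≠ 0 := hne
    exact Nat.finite_of_card_ne_zero this
  have hcard : A.relIndex B = Nat.card (B ⧸ A.subgroupOf B) := rfl
  have := Fintype.ofFinite (B ⧸ A.subgroupOf B)
  rw [hcard, Nat.card_eq_fintype_card, ← Finset.card_univ, ← Finset.card_attach]
  apply Finset.card_le_card_of_injOn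
    (fun x : {x // x ∈ F} ↦ (QuotientGroup.mk (⟨x.1, h1 x.1 x.2⟩ : B) : B ⧸ A.subgroupOf B))
    (fun _ _ ↦ Finset.mem_coe.2 (Finset.mem_univ _))
  intro x _ y _ hxy
  by_contra hne'
  have h3 : (y : E) ≠ x := fun h ↦ hne' (Subtype.ext h.symm)
  refine h2 y y.2 x x.2 h3 ?_
  have h4 := QuotientGroup.eq.1 hxy
  rw [Subgroup.mem_subgroupOf] at h4
  simpa [div_eq_mul_inv, mul_comm] using h4

theorem forms_of_big' (p : ℕ) [Fact p.Prime] (W : Type) [AddCommGroup W] [Module (ZMod p) W]
    (n : ℕ) (hcard : ∀ d, Nat.card W = p ^ d → n ≤ d) :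
    ∃ (lam : Fin n → (W →+ ZMod p)) (w : Fin n → W),
      ∀ i j, lam j (w i) = if j = i then 1 else 0 := by
  classical
  have hrank : (n : Cardinal) ≤ Module.rank (ZMod p) W := by
    by_contra hlt
    rw [not_le] at hlt
    have hlt' : Module.rank (ZMod p) W < Cardinal.aleph0 :=
      hlt.trans Cardinal.natCast_lt_aleph0
    have hf : Module.Finite (ZMod p) W := Module.rank_lt_aleph0_iff.1 hlt'
    have hd : Module.finrank (ZMod p) W < n := by
      rw [← Module.finrank_eq_rank] at hlt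
      exact_mod_cast hlt
    have hc : Nat.card W = p ^ Module.finrank (ZMod p) W := by
      rw [Module.natCard_eq_pow_finrank (K := ZMod p), Nat.card_zmod]
    exact absurd (hcard _ hc) (not_le.2 hd)
  obtain ⟨f, hf⟩ := Module.le_rank_iff_exists_linearMap.1 hrank
  obtain ⟨h, hh⟩ := LinearMap.exists_leftInverse_of_injective f (LinearMap.ker_eq_bot.2 hf)
  refine ⟨fun i ↦ ((LinearMap.proj i : (Fin n → ZMod p) →ₗ[ZMod p] ZMod p).comp
    h).toAddMonoidHom, fun i ↦ f (Pi.single i 1), ?_⟩
  intro i j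
  have h1 : h (f (Pi.single i 1)) = Pi.single i 1 := LinearMap.congr_fun hh (Pi.single i 1)
  simp [h1, Pi.single_apply]

/-- `n` linear forms with dual vectors on a big enough elementary abelian group -/
theorem forms_of_big (p : ℕ) [Fact p.Prime] (W : Type) [AddCommGroup W]
    (hexp : ∀ w : W, p • w = 0) (n : ℕ) (hcard : ∀ d, Nat.card W = p ^ d → n ≤ d) :
    ∃ (lam : Fin n → (W →+ ZMod p)) (w : Fin n → W),
      ∀ i j, lam j (w i) = if j = i then 1 else 0 :=
  @forms_of_big' p _ W _ (AddCommGroup.zmodModule hexp) n hcard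

/-- **L_LIN** -/
theorem l_lin : L_LIN := by
  classical
  intro p _ E _ U G u g r n hpG hU hG hUG hn
  have hp := (Fact.out : p.Prime)
  set P : Subgroup E := (powMonoidHom p : E →* E).range with hP
  have hmP : ∀ x : E, x ∈ P ↔ ∃ z, x = z ^ p := by
    intro x
    rw [hP, MonoidHom.mem_range]
    constructor
    · rintro ⟨z, hz⟩
      exact ⟨z, by simpa using hz.symm⟩
    · rintro ⟨z, hz⟩
      exact ⟨z, by simpa using hz.symm⟩
  have hPG : P ≤ G := by
    intro x hx
    obtain ⟨z, rfl⟩ := (hmP x).1 hx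
    exact hpG z
  -- the index of `P` in `U`
  have hA1 := relIndex_bd P U (p ^ u) (by
    intro F hF1 hF2
    apply hU F hF1
    intro x hx y hy hxy hz
    exact hF2 x hx y hy hxy ((hmP _).2 hz))
  have hA3 : P.relIndex (G ⊓ U) * G.relIndex U = P.relIndex U := by
    have := Subgroup.relIndex_inf_mul_relIndex P G U
    rwa [inf_eq_left.2 hPG] at this
  have hne1 : P.relIndex (G ⊓ U) ≠ 0 := by
    intro h0
    rw [h0, zero_mul] at hA3
    exact hA1.1 hA3.symm
  have hne2 : G.relIndex U ≠ 0 := by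
    intro h0
    rw [h0, mul_zero] at hA3
    exact hA1.1 hA3.symm
  obtain ⟨F2, hF2c, hF2m, hF2i⟩ := hUG
  have hA2 : p ^ r ≤ P.relIndex (G ⊓ U) := by
    rw [← hF2c]
    apply card_le_relIndex P (G ⊓ U) hne1 F2
    · intro x hx
      exact Subgroup.mem_inf.2 ⟨(hF2m x hx).2, (hF2m x hx).1⟩
    · intro x hx y hy hxy hm
      exact hF2i x hx y hy hxy ((hmP _).1 hm)
  have hA4 : p ^ r * G.relIndex U ≤ p ^ u :=
    (Nat.mul_le_mul_right _ hA2).trans (hA3.le.trans hA1.2)
  obtain ⟨F1, hF1c, hF1i⟩ := hG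
  -- the quotient
  set Q : Subgroup E := U ⊔ G with hQ
  have hB1 : G.relIndex Q * Q.index = G.index := Subgroup.relIndex_mul_index le_sup_right
  have hB2 : G.relIndex Q = G.relIndex U := Subgroup.relIndex_sup_right U G
  have hexp : ∀ w : Additive (E ⧸ Q), p • w = 0 := by
    intro w
    obtain ⟨e, he⟩ := QuotientGroup.mk_surjective (Additive.toMul w)
    have h1 : Additive.toMul (p • w) = 1 := by
      rw [toMul_nsmul, ← he, ← QuotientGroup.mk_pow, QuotientGroup.eq_one_iff]
      exact (le_sup_right : G ≤ Q) (hpG e)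
    exact h1
  obtain ⟨lam, w, hlw⟩ := forms_of_big p (Additive (E ⧸ Q)) hexp n (by
    intro d hd
    have hc' : Q.index = p ^ d := by
      rw [← hd]
      rfl
    have hGi : G.index ≠ 0 := by
      rw [← hB1, hB2, hc']
      exact mul_ne_zero hne2 (pow_ne_zero _ hp.ne_zero)
    have h5 : p ^ g ≤ G.index := by
      rw [← hF1c, ← Subgroup.relIndex_top_right]
      apply card_le_relIndex G ⊤ (by rwa [Subgroup.relIndex_top_right]) F1 (fun _ _ ↦ trivial)
      exact hF1i
    have h6 : p ^ (g + r) ≤ p ^ (u + d) := by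
      calc p ^ (g + r) = p ^ r * p ^ g := by rw [pow_add, mul_comm]
        _ ≤ p ^ r * G.index := Nat.mul_le_mul_left _ h5
        _ = (p ^ r * G.relIndex U) * p ^ d := by rw [← hB1, hB2, hc', mul_assoc]
        _ ≤ p ^ u * p ^ d := Nat.mul_le_mul_right _ hA4
        _ = p ^ (u + d) := by rw [pow_add]
    have h7 : g + r ≤ u + d := (Nat.pow_le_pow_iff_right hp.one_lt).1 h6
    omega)
  set π : Additive E →+ Additive (E ⧸ Q) := MonoidHom.toAdditive (QuotientGroup.mk' Q) with hπ
  have hπ0 : ∀ x ∈ Q, π (Additive.ofMul x) = 0 := by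
    intro x hx
    have : (QuotientGroup.mk' Q) x = 1 := (QuotientGroup.eq_one_iff x).2 hx
    exact this
  have hπs : ∀ w : Additive (E ⧸ Q), ∃ x : E, π (Additive.ofMul x) = w := by
    intro w
    obtain ⟨e, he⟩ := QuotientGroup.mk_surjective (Additive.toMul w)
    exact ⟨e, he⟩
  refine ⟨fun i ↦ (lam i).comp π, ?_, ?_, ?_⟩
  · intro i x hx
    rw [AddMonoidHom.comp_apply, hπ0 x ((le_sup_left : U ≤ Q) hx), map_zero]
  · intro i x hx
    rw [AddMonoidHom.comp_apply, hπ0 x ((le_sup_right : G ≤ Q) hx), map_zero]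
  · intro c hc
    obtain ⟨i, hi⟩ := Function.ne_iff.1 hc
    obtain ⟨x, hx⟩ := hπs (w i)
    refine ⟨x, ?_⟩
    have h2 : ∑ j, c j * ((lam j).comp π) (Additive.ofMul x) = c i := by
      rw [Finset.sum_eq_single i]
      · rw [AddMonoidHom.comp_apply, hx, hlw, if_pos rfl, mul_one]
      · intro j _ hj
        rw [AddMonoidHom.comp_apply, hx, hlw, if_neg hj, mul_zero]
      · intro hi'
        exact absurd (Finset.mem_univ i) hi'
    rw [h2]
    exact hi

end Pool.Agent.Helper61.LE
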