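import Pool.Agent.Helper11.LE.Goals1
import Pool.Agent.Helper88.RD.SLG
import Pool.Agent.Helper59.RP.BIN
import Pool.Agent.Helper51.SigLeo.Modulus

/-!
# LE: L_SLG (`Sel1` is a subgroup which contains the `p`-th powers and `a*`)
-/

namespace Pool.Agent.Helper61.LE

open NumberField Polynomial Module IsDedekindDomain TensorProduct Pool.Agent.Helper51.SigLeo
open Pool.Agent.Helper51.RP Pool.Agent.Helper42.RD Pool.Agent.Helper11.LE WithZero
open Pool.Agent.Helper90.RP (loc_pow loc_one loc_inv loc_mul L_one)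
open Pool.Agent.Helper88.RD (locD_mul locD_pow locD_inv)

theorem freeP_self {K : Type} [Field K] [NumberField K] (w : HeightOneSpectrum (𝓞 K)) :
    FreeP K w := by
  intro g _
  ext y
  exact g.commutes y

theorem above_self {K : Type} [Field K] [NumberField K] (W w : HeightOneSpectrum (𝓞 K)) :
    Above (M := K) (M₁ := K) W w ↔ W = w := by
  unfold Above
  constructor
  · intro h
    apply HeightOneSpectrum.ext
    rw [← h]
    ext x
    rw [Ideal.mem_comap]
    exact Iff.rfl
  · rintro rfl
    ext x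
    rw [Ideal.mem_comap]
    exact Iff.rfl

theorem val_neg_one_pow {K : Type} [Field K] [NumberField K] (w : HeightOneSpectrum (𝓞 K)) (n : ℕ)
    (a : K) : ordv w ((-1) ^ n * a) = ordv w a := by
  unfold ordv
  have h : w.valuation K ((-1 : K) ^ n) = 1 := by
    rw [map_pow, Valuation.map_neg, map_one, one_pow]
  rw [map_mul, h, one_mul]

section log

variable {p : ℕ} [Fact p.Prime] {k : Type} [NormedField k] [NormedAlgebra ℚ_[p] k]
  [IsUltrametricDist k] (L : IwasawaLog p k) {K : Type} [Field K] (T : Set (K →+* k))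

omit [IsUltrametricDist k] in
theorem L_neg_one : L.toFun (-1) = 0 := by
  have h := L.map_mul (-1) (-1)
  rw [neg_one_mul, neg_neg, L_one] at h
  have hk : (2 : k) ≠ 0 := by
    have : CharZero k := charZero_of_injective_algebraMap (algebraMap ℚ_[p] k).injective
    exact two_ne_zero
  have h2 : (2 : k) * L.toFun (-1) = 0 := by
    rw [two_mul]
    exact h.symm
  exact (mul_eq_zero.1 h2).resolve_left hk

theorem locSig_neg_one : LocSig L T (-1 : Kˣ) := by
  intro N
  refine ⟨1, ?_⟩
  intro τ _
  rw [one_pow, mul_one]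
  refine ⟨by simp, ?_⟩
  have h : Units.map (τ : K →* k) (-1) = -1 := by
    ext
    simp
  rw [h, L_neg_one, norm_zero]
  positivity

theorem locSig_neg_one_pow (n : ℕ) : LocSig L T ((-1 : Kˣ) ^ n) := by
  induction n with
  | zero => rw [pow_zero]; exact loc_one L
  | succ n ih => rw [pow_succ]; exact loc_mul L ih (locSig_neg_one L T)

end log

/-- **L_SLG** -/
theorem l_slg : L_SLG := by
  intro p _ k _ _ _ L K _ _ T R al hdat
  have hp : 0 < p := (Fact.out : p.Prime).pos
  have hpw : ∀ x : Kˣ, Pw p x → Sel1 L T R al x := by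
    rintro x ⟨z, rfl⟩
    exact ⟨fun w => locD_pow w z, loc_pow L z⟩
  refine ⟨⟨{ carrier := {x | Sel1 L T R al x}
             one_mem' := hpw 1 ⟨1, by rw [one_pow]⟩
             mul_mem' := ?_
             inv_mem' := ?_ }, fun x => Iff.rfl, hpw⟩, ?_⟩
  · rintro x y ⟨x2, x3⟩ ⟨y2, y3⟩
    exact ⟨fun w => locD_mul (x2 w) (y2 w), loc_mul L x3 y3⟩
  · rintro x ⟨x2, x3⟩
    exact ⟨fun w => locD_inv hp hdat (x2 w), loc_inv L x3⟩
  · intro ε a as hst has
    have ha0 : (a : K) ≠ 0 := RingOfIntegers.coe_ne_zero_iff.2 hst.ne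
    refine ⟨?_, ?_⟩
    · intro w
      refine ⟨fun hw => ?_, fun hw => ?_⟩
      · rw [has, val_neg_one_pow]
        exact hst.mat.free w w ((above_self w w).2 rfl) (freeP_self w) hw
      · obtain ⟨W, hW, _, j, hj⟩ := hst.mat.ram w hw
        rw [above_self] at hW
        subst hW
        refine ⟨j, ?_⟩
        rw [has]
        exact hj
    · have hb : LocSig L T (Units.mk0 (a : K) ha0) := by
        apply Pool.Agent.Helper59.RP.s_bin
        intro τ _
        obtain ⟨β, hβ⟩ := hst.adm
        have h3 : (a : K) - 1 = (p : K) ^ 3 * (β : K) := by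
          have h4 := congrArg (algebraMap (𝓞 K) K) hβ
          rw [map_mul, map_pow, map_natCast, map_sub, map_one] at h4
          exact h4
        have h5 : τ ((Units.mk0 (a : K) ha0 : Kˣ) : K) - 1 = τ ((a : K) - 1) := by
          rw [map_sub, map_one]; rfl
        rw [h5, h3, map_mul, norm_mul, map_pow, norm_pow, map_natCast,
          Pool.Agent.Helper59.RP.norm_p p]
        have h8 : ‖τ (β : K)‖ ≤ 1 :=
          norm_map_le_one p τ (RingOfIntegers.isIntegral_coe β)
        calc (1 / p : ℝ) ^ 3 * ‖τ (β : K)‖ ≤ (1 / p : ℝ) ^ 3 * 1 :=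
              mul_le_mul_of_nonneg_left h8 (by positivity)
          _ = (1 / p : ℝ) ^ 3 := mul_one _
      have has' : as = (-1) ^ (p - 1) * Units.mk0 (a : K) ha0 := by
        ext
        rw [has, Units.val_mul, Units.val_pow_eq_pow_val, Units.val_neg, Units.val_one,
          Units.val_mk0]
      rw [has']
      exact loc_mul L (locSig_neg_one_pow L T _) hb

end Pool.Agent.Helper61.LE
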